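import Mathlib
import Pool.Agent.H92.RK.Targets

set_option autoImplicit false

open MeasureTheory Set
open Pool.Agent.H92.RK

namespace Pool.Agent.H6.RK

lemma cube_aux (q t : ℝ) (hq : 0 ≤ q) (ht : 0 ≤ t) : 27 / 4 * q ^ 2 * t ≤ (q + t) ^ 3 := by
  have h : 0 ≤ (t + 4 * q) * (t - q / 2) ^ 2 := by positivity
  nlinarith [h]

/-- the key inequality for every `s` -/
lemma key_ineq (h h' : ℝ → ℝ) (hC : C1 h h') (h0 : ∀ x, 0 ≤ h x) (ha : h 0 = 0) (hb : h 1 = 0)
    (M x1 : ℝ) (hx0 : 0 ≤ x1) (hx1 : x1 ≤ 1) (hM : h x1 = M) (hle : ∀ x ∈ Icc (0 : ℝ) 1, h x ≤ M)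
    (s : ℝ) (hs : 0 ≤ s) :
    2 * s * M ^ 2 + (∫ x in (0 : ℝ)..1, h x ^ 2) ≤
      s ^ 2 * (∫ x in (0 : ℝ)..1, h' x ^ 2) +
        M ^ (4 / 3 : ℝ) * (∫ x in (0 : ℝ)..1, h x ^ (2 / 3 : ℝ)) := by
  obtain ⟨hd, hc'⟩ := hC
  have hc : Continuous h := continuous_iff_continuousAt.2 fun x => (hd x).continuousAt
  have hM0 : 0 ≤ M := hM ▸ h0 x1
  set C : ℝ := M ^ (4 / 3 : ℝ) with hCdef
  set w : ℝ → ℝ := fun x => h x ^ (1 / 3 : ℝ) * (C - h x ^ (4 / 3 : ℝ)) ^ (1 / 2 : ℝ) with hw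
  have hcw : Continuous w := by
    apply Continuous.mul
    · exact hc.rpow_const fun x => Or.inr (by norm_num)
    · exact (continuous_const.sub (hc.rpow_const fun x => Or.inr (by norm_num))).rpow_const
        fun x => Or.inr (by norm_num)
  set G : ℝ → ℝ := fun x => -(1 / 2) * (C - h x ^ (4 / 3 : ℝ)) ^ (3 / 2 : ℝ) with hG
  have hdG : ∀ x, HasDerivAt G (h' x * w x) x := by
    intro x
    have e1 := (hd x).rpow_const (p := (4 / 3 : ℝ)) (Or.inr (by norm_num))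
    have e2 := (e1.const_sub C).rpow_const (p := (3 / 2 : ℝ)) (Or.inr (by norm_num))
    have e3 := e2.const_mul (-(1 / 2) : ℝ)
    have e4 : (-(1 / 2) : ℝ) * (-(h' x * (4 / 3) * h x ^ ((4 / 3 : ℝ) - 1)) * (3 / 2) *
        (C - h x ^ (4 / 3 : ℝ)) ^ ((3 / 2 : ℝ) - 1)) = h' x * w x := by
      have a1 : (4 / 3 : ℝ) - 1 = 1 / 3 := by norm_num
      have a2 : (3 / 2 : ℝ) - 1 = 1 / 2 := by norm_num
      rw [a1, a2, hw]
      ring
    rw [← e4]
    exact e3
  have hcw' : Continuous fun x => h' x * w x := hc'.mul hcw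
  have hi : ∀ a b : ℝ, ∫ x in a..b, h' x * w x = G b - G a := by
    intro a b
    exact intervalIntegral.integral_eq_sub_of_hasDerivAt (fun x _ => hdG x)
      (hcw'.intervalIntegrable a b)
  have hCM : C ^ (3 / 2 : ℝ) = M ^ 2 := by
    rw [hCdef, ← Real.rpow_mul hM0]
    norm_num
  have g0 : G 0 = -(1 / 2) * M ^ 2 := by
    simp only [hG, ha]
    rw [Real.zero_rpow (by norm_num), sub_zero, hCM]
  have g1 : G 1 = -(1 / 2) * M ^ 2 := by
    simp only [hG, hb]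
    rw [Real.zero_rpow (by norm_num), sub_zero, hCM]
  have gx : G x1 = 0 := by
    simp only [hG, hM]
    rw [hCdef, sub_self, Real.zero_rpow (by norm_num), mul_zero]
  have hsq : ∀ x ∈ Icc (0 : ℝ) 1, w x ^ 2 = C * h x ^ (2 / 3 : ℝ) - h x ^ 2 := by
    intro x hx
    have hx2 := hle x hx
    have e1 : h x ^ (4 / 3 : ℝ) ≤ C := Real.rpow_le_rpow (h0 x) hx2 (by norm_num)
    have e2 : (h x ^ (1 / 3 : ℝ)) ^ 2 = h x ^ (2 / 3 : ℝ) := by
      rw [← Real.rpow_natCast, ← Real.rpow_mul (h0 x)]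
      norm_num
    have e3 : ((C - h x ^ (4 / 3 : ℝ)) ^ (1 / 2 : ℝ)) ^ 2 = C - h x ^ (4 / 3 : ℝ) := by
      rw [← Real.rpow_natCast, ← Real.rpow_mul (sub_nonneg.2 e1)]
      norm_num
    have e4 : h x ^ (2 / 3 : ℝ) * h x ^ (4 / 3 : ℝ) = h x ^ 2 := by
      rw [← Real.rpow_add_of_nonneg (h0 x) (by norm_num) (by norm_num)]
      norm_num
    simp only [hw]
    rw [mul_pow, e2, e3, mul_sub, e4]
    ring
  have hI : ∀ f : ℝ → ℝ, Continuous f → ∀ a b : ℝ, IntervalIntegrable f volume a b :=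
    fun f hf a b => hf.intervalIntegrable a b
  have c1 : Continuous fun x => s ^ 2 * h' x ^ 2 + w x ^ 2 :=
    (continuous_const.mul (hc'.pow 2)).add (hcw.pow 2)
  have c2 : Continuous fun x => 2 * s * (h' x * w x) := continuous_const.mul hcw'
  have p1 : ∫ x in (0 : ℝ)..x1, 2 * s * (h' x * w x) ≤
      ∫ x in (0 : ℝ)..x1, (s ^ 2 * h' x ^ 2 + w x ^ 2) := by
    apply intervalIntegral.integral_mono_on hx0 (hI _ c2 _ _) (hI _ c1 _ _)
    intro x _
    nlinarith [sq_nonneg (s * h' x - w x)]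
  have p2 : ∫ x in x1..(1 : ℝ), -(2 * s * (h' x * w x)) ≤
      ∫ x in x1..(1 : ℝ), (s ^ 2 * h' x ^ 2 + w x ^ 2) := by
    have c2n : Continuous fun x => -(2 * s * (h' x * w x)) := c2.neg
    apply intervalIntegral.integral_mono_on hx1 (hI _ c2n _ _) (hI _ c1 _ _)
    intro x _
    nlinarith [sq_nonneg (s * h' x + w x)]
  rw [intervalIntegral.integral_const_mul, hi, gx, g0] at p1
  rw [intervalIntegral.integral_neg, intervalIntegral.integral_const_mul, hi, gx, g1] at p2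
  have p3 : (∫ x in (0 : ℝ)..x1, (s ^ 2 * h' x ^ 2 + w x ^ 2)) +
      (∫ x in x1..(1 : ℝ), (s ^ 2 * h' x ^ 2 + w x ^ 2)) =
      ∫ x in (0 : ℝ)..1, (s ^ 2 * h' x ^ 2 + w x ^ 2) :=
    intervalIntegral.integral_add_adjacent_intervals (hI _ c1 _ _) (hI _ c1 _ _)
  have c3 : Continuous fun x => h x ^ (2 / 3 : ℝ) := hc.rpow_const fun x => Or.inr (by norm_num)
  have p4 : ∫ x in (0 : ℝ)..1, (s ^ 2 * h' x ^ 2 + w x ^ 2) =
      s ^ 2 * (∫ x in (0 : ℝ)..1, h' x ^ 2) +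
        (C * (∫ x in (0 : ℝ)..1, h x ^ (2 / 3 : ℝ)) - ∫ x in (0 : ℝ)..1, h x ^ 2) := by
    have d1 : Continuous fun x => s ^ 2 * h' x ^ 2 := continuous_const.mul (hc'.pow 2)
    have d2 : Continuous fun x => w x ^ 2 := hcw.pow 2
    have d3 : Continuous fun x => C * h x ^ (2 / 3 : ℝ) := continuous_const.mul c3
    have d4 : Continuous fun x => h x ^ 2 := hc.pow 2
    rw [intervalIntegral.integral_add (hI _ d1 _ _) (hI _ d2 _ _),
      intervalIntegral.integral_const_mul]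
    congr 1
    have : ∫ x in (0 : ℝ)..1, w x ^ 2 =
        ∫ x in (0 : ℝ)..1, (C * h x ^ (2 / 3 : ℝ) - h x ^ 2) := by
      apply intervalIntegral.integral_congr
      intro x hx
      rw [uIcc_of_le (by norm_num : (0 : ℝ) ≤ 1)] at hx
      exact hsq x hx
    rw [this, intervalIntegral.integral_sub (hI _ d3 _ _) (hI _ d4 _ _),
      intervalIntegral.integral_const_mul]
  linarith [p1, p2, p3, p4]

theorem pf_CIL : T_CIL := by
  intro h h' hC h0 ha hb
  have hc : Continuous h := continuous_iff_continuousAt.2 fun x => (hC.1 x).continuousAt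
  obtain ⟨x1, hx1, hmax⟩ := isCompact_Icc.exists_isMaxOn (s := Icc (0 : ℝ) 1)
    ⟨0, by norm_num⟩ hc.continuousOn
  have hle : ∀ x ∈ Icc (0 : ℝ) 1, h x ≤ h x1 := fun x hx => hmax hx
  set M := h x1 with hMdef
  set e := ∫ x in (0 : ℝ)..1, h' x ^ 2 with he
  set q := ∫ x in (0 : ℝ)..1, h x ^ 2 with hq
  set S := ∫ x in (0 : ℝ)..1, h x ^ (2 / 3 : ℝ) with hS
  have he0 : 0 ≤ e := intervalIntegral.integral_nonneg (by norm_num) fun x _ => sq_nonneg _
  have hq0 : 0 ≤ q := intervalIntegral.integral_nonneg (by norm_num) fun x _ => sq_nonneg _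
  have hS0 : 0 ≤ S := intervalIntegral.integral_nonneg (by norm_num)
    fun x _ => Real.rpow_nonneg (h0 x) _
  have hkey : ∀ s : ℝ, 0 ≤ s → 2 * s * M ^ 2 + q ≤ s ^ 2 * e + M ^ (4 / 3 : ℝ) * S :=
    fun s hs => key_ineq h h' hC h0 ha hb M x1 hx1.1 hx1.2 rfl hle s hs
  have hM0 : 0 ≤ M := h0 x1
  rcases hM0.eq_or_lt with hM1 | hM1
  · have hz : q = 0 := by
      have : q = ∫ x in (0 : ℝ)..1, (0 : ℝ) := by
        apply intervalIntegral.integral_congr
        intro x hx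
        rw [uIcc_of_le (by norm_num : (0 : ℝ) ≤ 1)] at hx
        have : h x = 0 := le_antisymm (by rw [hM1]; exact hle x hx) (h0 x)
        simp [this]
      rw [this]
      simp
    rw [hz]
    have : 0 ≤ e * S ^ 3 := by positivity
    simpa using this
  · set C := M ^ (4 / 3 : ℝ) with hCd
    have hC0 : 0 < C := Real.rpow_pos_of_pos hM1 _
    have hC3 : C ^ 3 = M ^ 4 := by
      rw [hCd, ← Real.rpow_natCast, ← Real.rpow_mul hM0, ← Real.rpow_natCast]
      norm_num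
    have hepos : 0 < e := by
      rcases he0.eq_or_lt with h1 | h1
      · exfalso
        have k := hkey ((C * S + 1) / (2 * M ^ 2)) (by positivity)
        rw [← h1] at k
        have k2 : 2 * ((C * S + 1) / (2 * M ^ 2)) * M ^ 2 = C * S + 1 := by
          field_simp
        rw [k2] at k
        linarith
      · exact h1
    have k := hkey (M ^ 2 / e) (by positivity)
    have k1 : 2 * (M ^ 2 / e) * M ^ 2 = 2 * (M ^ 4 / e) := by
      field_simp
    have k2 : (M ^ 2 / e) ^ 2 * e = M ^ 4 / e := by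
      field_simp
    rw [k1, k2] at k
    have k3 : q + M ^ 4 / e ≤ C * S := by linarith
    have ht : 0 ≤ M ^ 4 / e := by positivity
    have k4 : (q + M ^ 4 / e) ^ 3 ≤ (C * S) ^ 3 := pow_le_pow_left₀ (by positivity) k3 3
    have k5 := cube_aux q (M ^ 4 / e) hq0 ht
    have k6 : 27 / 4 * q ^ 2 * (M ^ 4 / e) ≤ M ^ 4 * S ^ 3 := by
      rw [mul_pow, hC3] at k4
      exact k5.trans k4
    have hM4 : 0 < M ^ 4 := by positivity
    have k7 : 27 / 4 * q ^ 2 * (M ^ 4 / e) = M ^ 4 * (27 / 4 * q ^ 2 / e) := by ring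
    rw [k7] at k6
    have k8 := le_of_mul_le_mul_left k6 hM4
    rw [div_le_iff₀ hepos] at k8
    linarith

end Pool.Agent.H6.RK
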